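import Mathlib

namespace Pool.Agent.Results.MP_6623a1_co.Exact

open Finset

/-- The family `g` has unique multiset sums. -/
def UniqueMultisetSums {G : Type*} [AddCommGroup G] {n : ℕ} (g : Fin n → G) : Prop :=
  ∀ k : Fin n → ℕ, ∑ j, k j = n → ∑ j, k j • g j = ∑ j, g j → k = fun _ => 1

/-- Orders of finite abelian groups containing `n` elements with unique multiset sums. -/
def orders (n : ℕ) : Set ℕ :=
  {N | ∃ (G : Type) (_ : AddCommGroup G) (_ : Finite G),
    Nat.card G = N ∧ ∃ g : Fin n → G, UniqueMultisetSums g}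

theorem key {G : Type*} [AddCommGroup G] {m : ℕ} (g : Fin (m + 1) → G)
    (hg : UniqueMultisetSums g) (I J : Finset (Fin m)) (hc : I.card ≤ J.card)
    (h : ∑ i ∈ I, (g i.succ - g 0) = ∑ i ∈ J, (g i.succ - g 0)) : I = J := by
  classical
  let k : Fin (m + 1) → ℕ := Fin.cons (1 + (J.card - I.card))
    (fun i => 1 + (if i ∈ I then 1 else 0) - (if i ∈ J then 1 else 0))
  have hk : ∀ i : Fin m, k i.succ + (if i ∈ J then 1 else 0) = 1 + (if i ∈ I then 1 else 0) := by
    intro i
    simp only [k, Fin.cons_succ]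
    split_ifs <;> simp
  have hk0 : k 0 + I.card = 1 + J.card := by
    simp only [k, Fin.cons_zero]; omega
  have h1 : ∑ j, k j = m + 1 := by
    rw [Fin.sum_univ_succ]
    have := Finset.sum_congr (rfl : (univ : Finset (Fin m)) = univ) (fun i _ => hk i)
    rw [Finset.sum_add_distrib, Finset.sum_add_distrib] at this
    simp at this
    omega
  have h2 : ∑ j, k j • g j = ∑ j, g j := by
    rw [Fin.sum_univ_succ, Fin.sum_univ_succ]
    have e1 : ∑ i : Fin m, k i.succ • g i.succ + ∑ i ∈ J, g i.succ
        = ∑ i : Fin m, g i.succ + ∑ i ∈ I, g i.succ := by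
      have := Finset.sum_congr (rfl : (univ : Finset (Fin m)) = univ)
        (fun i _ => congrArg (fun t : ℕ => t • g i.succ) (hk i))
      simp only [add_smul, Finset.sum_add_distrib, one_smul, ite_smul, zero_smul] at this
      simpa [Finset.sum_ite_mem] using this
    have e2 : k 0 • g 0 + I.card • g 0 = g 0 + J.card • g 0 := by
      rw [← add_smul, hk0, add_smul, one_smul]
    rw [Finset.sum_sub_distrib, Finset.sum_sub_distrib, Finset.sum_const, Finset.sum_const] at h
    have e3 : k 0 • g 0 = g 0 + J.card • g 0 - I.card • g 0 := by rw [← e2]; abel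
    have e4 : ∑ i : Fin m, k i.succ • g i.succ
        = ∑ i : Fin m, g i.succ + ∑ i ∈ I, g i.succ - ∑ i ∈ J, g i.succ := by rw [← e1]; abel
    have e5 : ∑ i ∈ I, g i.succ = ∑ i ∈ J, g i.succ - J.card • g 0 + I.card • g 0 := by
      rw [← h]; abel
    rw [e3, e4, e5]; abel
  have h3 := hg k h1 h2
  ext i
  have := hk i
  rw [h3] at this
  by_cases hi : i ∈ I <;> by_cases hj : i ∈ J <;> simp_all

theorem lower {G : Type*} [AddCommGroup G] [Finite G] {m : ℕ} (g : Fin (m + 1) → G)
    (hg : UniqueMultisetSums g) : 2 ^ m ≤ Nat.card G := by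
  have hinj : Function.Injective
      (fun I : Finset (Fin m) => ∑ i ∈ I, (g i.succ - g 0)) := by
    intro I J h
    rcases le_total I.card J.card with hc | hc
    · exact key g hg I J hc h
    · exact (key g hg J I hc h.symm).symm
  have := Nat.card_le_card_of_injective _ hinj
  simpa using this

theorem upper (m : ℕ) :
    UniqueMultisetSums (G := Fin m → ZMod 2)
      (Fin.cons 0 (fun i => Pi.single i 1) : Fin (m + 1) → (Fin m → ZMod 2)) := by
  intro k h1 h2
  rw [Fin.sum_univ_succ] at h1
  rw [Fin.sum_univ_succ, Fin.sum_univ_succ] at h2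
  simp only [Fin.cons_zero, Fin.cons_succ, smul_zero, zero_add] at h2
  have h3 : ∀ i : Fin m, 1 ≤ k i.succ ∧ k i.succ % 2 = 1 := by
    intro i
    have := congrFun h2 i
    simp only [Finset.sum_apply, Pi.smul_apply, Pi.single_apply, smul_ite, smul_zero,
      Finset.sum_ite_eq, Finset.mem_univ, if_true] at this
    have h4 : ((k i.succ : ℕ) : ZMod 2) = ((1 : ℕ) : ZMod 2) := by simpa using this
    rw [ZMod.natCast_eq_natCast_iff'] at h4
    omega
  have h5 : ∑ i : Fin m, k i.succ = m + ∑ i : Fin m, (k i.succ - 1) := by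
    have : ∀ i : Fin m, k i.succ = 1 + (k i.succ - 1) := fun i => by have := (h3 i).1; omega
    rw [Finset.sum_congr rfl (fun i _ => this i), Finset.sum_add_distrib]
    simp
  have h6 : ∀ i : Fin m, k i.succ - 1 ≤ ∑ i : Fin m, (k i.succ - 1) := fun i =>
    Finset.single_le_sum (f := fun i : Fin m => k i.succ - 1) (fun _ _ => Nat.zero_le _)
      (Finset.mem_univ i)
  have h7 : ∀ i : Fin m, k i.succ = 1 := fun i => by
    have := h3 i; have := h6 i; omega
  have h8 : ∑ i : Fin m, k i.succ = m := by simp [h7]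
  funext j
  refine Fin.cases ?_ (fun i => h7 i) j
  omega

theorem result (n : ℕ) (hn : 1 ≤ n) : IsLeast (orders n) (2 ^ (n - 1)) := by
  obtain ⟨m, rfl⟩ : ∃ m, n = m + 1 := ⟨n - 1, by omega⟩
  constructor
  · refine ⟨Fin m → ZMod 2, inferInstance, inferInstance, ?_, _, upper m⟩
    simp
  · rintro N ⟨G, _, _, rfl, g, hg⟩
    simpa using lower g hg

end Pool.Agent.Results.MP_6623a1_co.Exact
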